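import Pool.Agent.Zk20.GT.EulerU
import Pool.Agent.Zk20.GT.GenAvg

/-!
A finite product of families of twists, over the cyclotomic fields (helper20; adapted from
`Results/MP_7193be_nt/ModularCurves6725`, helper165).
-/

set_option autoImplicit false
set_option maxHeartbeats 4000000

open Complex NumberField IsDedekindDomain
open H370 (zset mult NN Nd Ns)
open Pool.Agent.H82R3.EK

namespace Pool.Agent.Zk20.GT

/-- zeros in the strip belonging to the degree `i` -/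
def zerosI (i : ℕ) (F : ℂ → ℂ) (T : ℝ) : Set ℂ :=
  {s : ℂ | (i : ℝ) / 2 < s.re ∧ s.re < (i : ℝ) / 2 + 1 ∧ T < s.im ∧ s.im ≤ 2 * T ∧ F s = 0}

/-- their number -/
noncomputable def NzI (i : ℕ) (F : ℂ → ℂ) (T : ℝ) : ℕ := ∑ᶠ s ∈ zerosI i F T, analyticOrderNatAt F s

/-- those on the line -/
noncomputable def N₀I (i : ℕ) (F : ℂ → ℂ) (T : ℝ) : ℕ :=
  ∑ᶠ s ∈ {s : ℂ | s ∈ zerosI i F T ∧ s.re = ((i : ℝ) + 1) / 2}, analyticOrderNatAt F s

section shift
variable (i : ℕ)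

lemma order_shiftI (L : ℂ → ℂ) (s : ℂ) :
    analyticOrderNatAt (fun z => L (z - (i : ℂ) / 2)) (s + (i : ℂ) / 2) = analyticOrderNatAt L s := by
  have hg : AnalyticAt ℂ (fun z : ℂ => z - (i : ℂ) / 2) (s + (i : ℂ) / 2) := by fun_prop
  have hd : deriv (fun z : ℂ => z - (i : ℂ) / 2) (s + (i : ℂ) / 2) ≠ 0 := by
    simp
  have h := analyticOrderAt_comp_of_deriv_ne_zero (f := L) hg hd
  unfold analyticOrderNatAt
  have h2 : (fun z : ℂ => L (z - (i : ℂ) / 2)) = L ∘ (fun z : ℂ => z - (i : ℂ) / 2) := rfl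
  rw [h2, h]
  congr 2
  ring

lemma re_half (s : ℂ) : (s + (i : ℂ) / 2 : ℂ).re = s.re + (i : ℝ) / 2 := by
  have : ((i : ℂ) / 2) = (((i : ℝ) / 2 : ℝ) : ℂ) := by push_cast; rfl
  rw [this, Complex.add_re, Complex.ofReal_re]

lemma im_half (s : ℂ) : (s + (i : ℂ) / 2 : ℂ).im = s.im := by
  have : ((i : ℂ) / 2) = (((i : ℝ) / 2 : ℝ) : ℂ) := by push_cast; rfl
  rw [this, Complex.add_im, Complex.ofReal_im, add_zero]

lemma re_half' (s : ℂ) : (s - (i : ℂ) / 2 : ℂ).re = s.re - (i : ℝ) / 2 := by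
  have : ((i : ℂ) / 2) = (((i : ℝ) / 2 : ℝ) : ℂ) := by push_cast; rfl
  rw [this, Complex.sub_re, Complex.ofReal_re]

lemma mem_shiftI (L : ℂ → ℂ) (T : ℝ) (s : ℂ) :
    s + (i : ℂ) / 2 ∈ zerosI i (fun z => L (z - (i : ℂ) / 2)) T ↔ s ∈ zset L T (2 * T) := by
  have h3 : s + (i : ℂ) / 2 - (i : ℂ) / 2 = s := by ring
  constructor
  · rintro ⟨a, b, c, d, e⟩
    rw [re_half] at a b
    rw [im_half] at c d
    simp only [h3] at e
    exact ⟨by linarith, by linarith, c, d, e⟩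
  · rintro ⟨a, b, c, d, e⟩
    refine ⟨by rw [re_half]; linarith, by rw [re_half]; linarith, by rw [im_half]; exact c,
      by rw [im_half]; exact d, ?_⟩
    simp only [h3]
    exact e

lemma zeros_shiftI (L : ℂ → ℂ) (T : ℝ) :
    zerosI i (fun z => L (z - (i : ℂ) / 2)) T = (fun s : ℂ => s + (i : ℂ) / 2) '' zset L T (2 * T) := by
  ext s
  constructor
  · intro hs
    refine ⟨s - (i : ℂ) / 2, ?_, by ring⟩
    rw [← mem_shiftI i]
    convert hs using 1
    ring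
  · rintro ⟨t, ht, rfl⟩
    exact (mem_shiftI i L T t).mpr ht

lemma inj_shiftI : Function.Injective (fun s : ℂ => s + (i : ℂ) / 2) := fun a b h => by
  simpa using h

lemma Nz_shiftI (L : ℂ → ℂ) (T : ℝ) :
    NzI i (fun z => L (z - (i : ℂ) / 2)) T = NN L T (2 * T) := by
  unfold NzI NN
  rw [zeros_shiftI i, finsum_mem_image (inj_shiftI i).injOn]
  refine finsum_congr fun s => finsum_congr fun _ => ?_
  exact order_shiftI i L s

lemma N₀_shiftI (L : ℂ → ℂ) (T : ℝ) :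
    N₀I i (fun z => L (z - (i : ℂ) / 2)) T = cnt L (line T (2 * T)) := by
  unfold N₀I cnt
  have h : {s : ℂ | s ∈ zerosI i (fun z => L (z - (i : ℂ) / 2)) T ∧ s.re = ((i : ℝ) + 1) / 2} =
      (fun s : ℂ => s + (i : ℂ) / 2) '' {s : ℂ | s ∈ line T (2 * T) ∧ L s = 0} := by
    ext s
    constructor
    · rintro ⟨h1, h2⟩
      rw [zeros_shiftI i] at h1
      obtain ⟨t, ⟨_, _, h3, h4, h5⟩, rfl⟩ := h1
      refine ⟨t, ⟨⟨?_, h3, h4⟩, h5⟩, rfl⟩
      simp only [re_half] at h2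
      linarith
    · rintro ⟨t, ⟨⟨h1, h3, h4⟩, h5⟩, rfl⟩
      refine ⟨(mem_shiftI i L T t).mpr ⟨by rw [h1]; norm_num, by rw [h1]; norm_num, h3, h4, h5⟩, ?_⟩
      simp only [re_half]
      rw [h1]
      ring
  rw [h, finsum_mem_image (inj_shiftI i).injOn]
  refine finsum_congr fun s => finsum_congr fun _ => ?_
  exact order_shiftI i L s

end shift

/-- a family of twists, with everything that is needed -/
structure IsPiece (i N : ℕ) (c u : ℕ → ℂ) (L : (q : ℕ) → DirichletCharacter ℂ q → ℂ → ℂ) : Prop where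
  an : ∀ (q : ℕ) (χ : DirichletCharacter ℂ q), 1 ≤ q → Nat.Coprime q N → χ.IsPrimitive →
    ∀ s : ℂ, s ≠ 1 → AnalyticAt ℂ (L q χ) s
  mer : ∀ (q : ℕ) (χ : DirichletCharacter ℂ q), 1 ≤ q → Nat.Coprime q N → χ.IsPrimitive →
    MeromorphicAt (L q χ) 1
  eul : ∀ (q : ℕ) (χ : DirichletCharacter ℂ q), 1 ≤ q → Nat.Coprime q N → χ.IsPrimitive →
    ∀ s : ℂ, (i : ℝ) / 2 + 1 < s.re →
      HasProd (fun p : Nat.Primes => eulU c u q χ s p) (L q χ (s - (i : ℂ) / 2))
  sc : ∀ s : ℂ, (i : ℝ) / 2 + 1 < s.re →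
    Summable (fun p : Nat.Primes => ‖c p * ((p : ℕ) : ℂ) ^ (-s)‖)
  su : ∀ s : ℂ, (i : ℝ) / 2 + 1 < s.re →
    Summable (fun p : Nat.Primes => Real.sqrt ‖u p‖ * ((p : ℕ) : ℝ) ^ (-s.re))
  good : ∃ d A : ℝ, 1 ≤ d ∧ 1 ≤ A ∧
    ∀ (q : ℕ) (χ : DirichletCharacter ℂ q), 1 ≤ q → Nat.Coprime q N → χ.IsPrimitive →
      ∃ a : ℕ → ℂ, W388.GoodE d A (q : ℝ) (L q χ) a
  avg : ∃ K η X0 : ℝ, 1 ≤ K ∧ 0 < η ∧ 1 ≤ X0 ∧
    ∀ (X Y : ℕ) (T : ℝ), X0 ≤ X → K * X ≤ Y → (Y : ℝ) ≤ (X : ℝ) ^ (1 + η) →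
    (Real.log X) ^ 2 ≤ T → T ≤ (X : ℝ) ^ η →
    T * Real.log X / 9 ≤ ∑ q ∈ (Finset.Ioc X Y).filter (fun q => Nat.Coprime q N),
        (1 / (q : ℝ) ^ 2) * SS (fun q χ => (NN (L q χ) T (2 * T) : ℝ)) q ∧
    0.6725 * ∑ q ∈ (Finset.Ioc X Y).filter (fun q => Nat.Coprime q N),
        (1 / (q : ℝ) ^ 2) * SS (fun q χ => (NN (L q χ) T (2 * T) : ℝ)) q ≤
      ∑ q ∈ (Finset.Ioc X Y).filter (fun q => Nat.Coprime q N),
        (1 / (q : ℝ) ^ 2) * SS (fun q χ => (Ns (L q χ) T (2 * T) : ℝ)) q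

theorem assemble {J : Type} [Fintype J] [Nonempty J] (i N : ℕ) (c u : J → ℕ → ℂ)
    (L : J → (q : ℕ) → DirichletCharacter ℂ q → ℂ → ℂ)
    (hP : ∀ j, IsPiece i N (c j) (u j) (L j)) :
    ∃ Λ : ℕ → ℂ → ℂ,
      (∀ q : ℕ, 1 ≤ q → Nat.Coprime q N →
        (∀ s : ℂ, s ≠ (i : ℂ) / 2 + 1 → AnalyticAt ℂ (Λ q) s) ∧
        MeromorphicAt (Λ q) ((i : ℂ) / 2 + 1) ∧
        ((∀ (j : J) (q : ℕ) (χ : DirichletCharacter ℂ q), 1 ≤ q → Nat.Coprime q N → χ.IsPrimitive →
          AnalyticAt ℂ (L j q χ) 1) → Differentiable ℂ (Λ q)) ∧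
        ∀ (K : Type) [Field K] [NumberField K] [IsCyclotomicExtension {q} ℚ K] (s : ℂ),
          (i : ℝ) / 2 + 1 < s.re →
          HasProd (fun v : HeightOneSpectrum (𝓞 K) => ∏ j, facU (c j) (u j) s v) (Λ q s)) ∧
      ∃ κ η X₀ : ℝ, 1 ≤ κ ∧ 0 < η ∧ 1 ≤ X₀ ∧
        ∀ (X Y : ℕ) (T : ℝ), X₀ ≤ X → κ * X ≤ Y → (Y : ℝ) ≤ (X : ℝ) ^ (1 + η) →
        (Real.log X) ^ 2 ≤ T → T ≤ (X : ℝ) ^ η →
        Fintype.card J * (T * Real.log X / 9) ≤ ∑ q ∈ (Finset.Ioc X Y).filter (fun q => Nat.Coprime q N),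
            (1 / (q : ℝ) ^ 2) * (NzI i (Λ q) T : ℝ) ∧
        0.6725 * ∑ q ∈ (Finset.Ioc X Y).filter (fun q => Nat.Coprime q N),
            (1 / (q : ℝ) ^ 2) * (NzI i (Λ q) T : ℝ) ≤
          ∑ q ∈ (Finset.Ioc X Y).filter (fun q => Nat.Coprime q N),
            (1 / (q : ℝ) ^ 2) * (N₀I i (Λ q) T : ℝ) := by
  classical
  have hav := fun j => (hP j).avg
  choose κ η X0 hκ hη hX0 h using hav
  have hgd := fun j => (hP j).good
  choose d A hd hA hgood using hgd
  obtain ⟨j0⟩ := (inferInstance : Nonempty J)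
  have hκs : ∀ j, κ j ≤ ∑ i, κ i := fun j =>
    Finset.single_le_sum (f := κ) (fun i _ => le_trans zero_le_one (hκ i)) (Finset.mem_univ j)
  have hXs : ∀ j, X0 j ≤ ∑ i, X0 i := fun j =>
    Finset.single_le_sum (f := X0) (fun i _ => le_trans zero_le_one (hX0 i)) (Finset.mem_univ j)
  have hηs : ∀ j, (∑ i, (η i)⁻¹)⁻¹ ≤ η j := fun j => by
    have h1 : (η j)⁻¹ ≤ ∑ i, (η i)⁻¹ :=
      Finset.single_le_sum (f := fun i => (η i)⁻¹) (fun i _ => (inv_pos.2 (hη i)).le)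
        (Finset.mem_univ j)
    have h2 := inv_anti₀ (inv_pos.2 (hη j)) h1
    rwa [inv_inv] at h2
  have hη0 : 0 < (∑ i, (η i)⁻¹)⁻¹ := by
    refine inv_pos.2 (Finset.sum_pos (fun i _ => inv_pos.2 (hη i)) ⟨j0, Finset.mem_univ _⟩)
  have hcond : ∀ (q : ℕ) [NeZero q], Nat.Coprime q N → ∀ χ : DirichletCharacter ℂ q,
      1 ≤ χ.conductor ∧ Nat.Coprime χ.conductor N ∧ χ.primitiveCharacter.IsPrimitive := by
    intro q _ hq χ
    exact ⟨Nat.one_le_iff_ne_zero.2 χ.conductor_ne_zero,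
      Nat.Coprime.coprime_dvd_left χ.conductor_dvd_level hq, χ.primitiveCharacter_isPrimitive⟩
  refine ⟨fun q s => ∏ j, ∏ᶠ χ : DirichletCharacter ℂ q,
      L j χ.conductor χ.primitiveCharacter (s - (i : ℂ) / 2), ?_,
    ∑ i, κ i, (∑ i, (η i)⁻¹)⁻¹, max (∑ i, X0 i) 3, le_trans (hκ j0) (hκs j0), hη0,
    le_trans (le_trans (hX0 j0) (hXs j0)) (le_max_left _ _), ?_⟩
  · intro q hq hqM
    have : NeZero q := ⟨by omega⟩
    simp_rw [finprod_eq_prod_of_fintype]
    have hsh : ∀ (g : ℂ → ℂ) (s : ℂ), AnalyticAt ℂ g (s - (i : ℂ) / 2) →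
        AnalyticAt ℂ (fun z => g (z - (i : ℂ) / 2)) s := fun g s hg =>
      AnalyticAt.comp' hg (by fun_prop)
    refine ⟨?_, ?_, ?_, ?_⟩
    · intro s hs
      have hs1 : s - (i : ℂ) / 2 ≠ 1 := by
        intro h
        apply hs
        linear_combination h
      refine Finset.analyticAt_fun_prod _ fun j _ => Finset.analyticAt_fun_prod _ fun χ _ => ?_
      obtain ⟨h1, h2, h3⟩ := hcond q hqM χ
      exact hsh _ s ((hP j).an _ _ h1 h2 h3 _ hs1)
    · refine MeromorphicAt.fun_prod fun j _ => MeromorphicAt.fun_prod fun χ _ => ?_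
      obtain ⟨h1, h2, h3⟩ := hcond q hqM χ
      have h4 := (hP j).mer _ _ h1 h2 h3
      have h5 : MeromorphicAt (L j χ.conductor χ.primitiveCharacter)
          ((fun z : ℂ => z - (i : ℂ) / 2) ((i : ℂ) / 2 + 1)) := by
        have : (fun z : ℂ => z - (i : ℂ) / 2) ((i : ℂ) / 2 + 1) = 1 := by
          show (i : ℂ) / 2 + 1 - (i : ℂ) / 2 = 1
          ring
        rw [this]
        exact h4
      exact MeromorphicAt.comp_analyticAt h5 (by fun_prop)
    · intro hall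
      intro s
      refine AnalyticAt.differentiableAt ?_
      refine Finset.analyticAt_fun_prod _ fun j _ => Finset.analyticAt_fun_prod _ fun χ _ => ?_
      obtain ⟨h1, h2, h3⟩ := hcond q hqM χ
      by_cases hs1 : s - (i : ℂ) / 2 = 1
      · apply hsh
        rw [hs1]
        exact hall j _ _ h1 h2 h3
      · exact hsh _ s ((hP j).an _ _ h1 h2 h3 _ hs1)
    · intro K _ _ _ s hs
      apply hasProd_prod
      intro j _
      exact hasProd_eulerU (fun q χ s => L j q χ (s - (i : ℂ) / 2)) s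
        (fun q χ h1 h2 h3 => (hP j).eul q χ h1 h2 h3 s hs) q hqM K ((hP j).sc s hs)
        ((hP j).su s hs)
  · intro X Y T a1 a2 a3 a4 a5
    have hX3 : (3 : ℝ) ≤ X := le_trans (le_max_right _ _) a1
    have hX0' : (0 : ℝ) < X := by linarith
    have hb : ∀ j, T * Real.log X / 9 ≤ ∑ q ∈ (Finset.Ioc X Y).filter (fun q => Nat.Coprime q N),
            (1 / (q : ℝ) ^ 2) * SS (fun q χ => (NN (L j q χ) T (2 * T) : ℝ)) q ∧
        0.6725 * ∑ q ∈ (Finset.Ioc X Y).filter (fun q => Nat.Coprime q N),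
            (1 / (q : ℝ) ^ 2) * SS (fun q χ => (NN (L j q χ) T (2 * T) : ℝ)) q ≤
          ∑ q ∈ (Finset.Ioc X Y).filter (fun q => Nat.Coprime q N),
            (1 / (q : ℝ) ^ 2) * SS (fun q χ => (Ns (L j q χ) T (2 * T) : ℝ)) q := by
      intro j
      refine h j X Y T (le_trans (hXs j) (le_trans (le_max_left _ _) a1)) ?_ ?_ a4 ?_
      · exact le_trans (mul_le_mul_of_nonneg_right (hκs j) hX0'.le) a2
      · refine a3.trans (Real.rpow_le_rpow_of_exponent_le (by linarith) ?_)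
        linarith [hηs j]
      · exact a5.trans (Real.rpow_le_rpow_of_exponent_le (by linarith) (hηs j))
    have hT1 : 1 ≤ T := by
      refine le_trans ?_ a4
      have h1 : 1 ≤ Real.log X := by
        rw [Real.le_log_iff_exp_le (by linarith)]
        exact le_trans (by have := Real.exp_one_lt_d9; linarith) hX3
      nlinarith
    -- for a single `q`
    have key : ∀ q ∈ (Finset.Ioc X Y).filter (fun q => Nat.Coprime q N),
        ((NzI i (fun s => ∏ j, ∏ᶠ χ : DirichletCharacter ℂ q,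
            L j χ.conductor χ.primitiveCharacter (s - (i : ℂ) / 2)) T : ℕ) : ℝ) =
          ∑ j, SS (fun q χ => (NN (L j q χ) T (2 * T) : ℝ)) q ∧
        ∑ j, SS (fun q χ => (Ns (L j q χ) T (2 * T) : ℝ)) q ≤
          ((N₀I i (fun s => ∏ j, ∏ᶠ χ : DirichletCharacter ℂ q,
            L j χ.conductor χ.primitiveCharacter (s - (i : ℂ) / 2)) T : ℕ) : ℝ) := by
      intro q hq
      rw [Finset.mem_filter, Finset.mem_Ioc] at hq
      obtain ⟨⟨hq1, hq2⟩, hqM⟩ := hq
      have : NeZero q := ⟨by omega⟩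
      have hG : ∀ (x : J × DirichletCharacter ℂ q),
          ∃ a : ℕ → ℂ, W388.GoodE (d x.1) (A x.1) (x.2.conductor : ℝ)
            (L x.1 x.2.conductor x.2.primitiveCharacter) a := by
        rintro ⟨j, χ⟩
        obtain ⟨h1, h2, h3⟩ := hcond q hqM χ
        exact hgood j _ _ h1 h2 h3
      have hQ : ∀ χ : DirichletCharacter ℂ q, (1 : ℝ) ≤ (χ.conductor : ℝ) := by
        intro χ
        have : 1 ≤ χ.conductor := Nat.pos_of_ne_zero χ.conductor_ne_zero
        exact_mod_cast this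
      have hfin : ∀ x : J × DirichletCharacter ℂ q,
          (zset (L x.1 x.2.conductor x.2.primitiveCharacter) T (2 * T)).Finite := by
        intro x
        obtain ⟨a, ha⟩ := hG x
        exact W388.zset_finite_D (hA x.1) (hQ x.2) ha T (2 * T) hT1
      have han : ∀ (x : J × DirichletCharacter ℂ q) (s : ℂ), 0 < s.im →
          AnalyticAt ℂ (L x.1 x.2.conductor x.2.primitiveCharacter) s := by
        intro x s hs
        obtain ⟨a, ha⟩ := hG x
        exact ha.an s hs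
      have hpre : IsPreconnected {z : ℂ | 0 < z.im} :=
        (convex_halfSpace_im_gt 0).isPreconnected
      have htop : ∀ (x : J × DirichletCharacter ℂ q) (s : ℂ), 0 < s.im →
          analyticOrderAt (L x.1 x.2.conductor x.2.primitiveCharacter) s ≠ ⊤ := by
        intro x s hs
        obtain ⟨a, ha⟩ := hG x
        have h1 : L x.1 x.2.conductor x.2.primitiveCharacter (⟨2, 1⟩ : ℂ) ≠ 0 :=
          ha.nzr _ (by norm_num) (by norm_num)
        exact H370.Loc.order_ne_top (K := {z : ℂ | 0 < z.im}) hpre (fun z hz => han x z hz)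
          (by norm_num : (⟨2, 1⟩ : ℂ) ∈ {z : ℂ | 0 < z.im}) h1 hs
      have e1 : (fun s : ℂ => ∏ j, ∏ᶠ χ : DirichletCharacter ℂ q,
            L j χ.conductor χ.primitiveCharacter (s - (i : ℂ) / 2)) =
          fun s : ℂ => (fun z : ℂ => ∏ x : J × DirichletCharacter ℂ q,
            L x.1 x.2.conductor x.2.primitiveCharacter z) (s - (i : ℂ) / 2) := by
        funext s
        simp only [finprod_eq_prod_of_fintype]
        rw [Fintype.prod_prod_type]
      rw [e1, Nz_shiftI i (fun z : ℂ => ∏ x : J × DirichletCharacter ℂ q,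
            L x.1 x.2.conductor x.2.primitiveCharacter z) T,
        N₀_shiftI i (fun z : ℂ => ∏ x : J × DirichletCharacter ℂ q,
            L x.1 x.2.conductor x.2.primitiveCharacter z) T, NN_eq]
      unfold SS
      simp only [finsum_eq_sum_of_fintype]
      have himS : ∀ s ∈ strip T (2 * T), 0 < s.im := fun s hs => by
        have := hs.2.2.1
        linarith
      have himL : ∀ s ∈ line T (2 * T), 0 < s.im := fun s hs => by
        have := hs.2.1
        linarith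
      rw [cnt_prod Finset.univ (fun x : J × DirichletCharacter ℂ q =>
          L x.1 x.2.conductor x.2.primitiveCharacter)
        (W := strip T (2 * T)) (fun x _ s hs => han x s (himS s hs))
        (fun x _ s hs => htop x s (himS s hs)) (fun x _ => ?_),
        cnt_prod Finset.univ (fun x : J × DirichletCharacter ℂ q =>
          L x.1 x.2.conductor x.2.primitiveCharacter)
        (W := line T (2 * T)) (fun x _ s hs => han x s (himL s hs))
        (fun x _ s hs => htop x s (himL s hs)) (fun x _ => ?_)]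
      · refine ⟨?_, ?_⟩
        · push_cast
          rw [Fintype.sum_prod_type]
          exact Finset.sum_congr rfl fun j _ => Finset.sum_congr rfl fun χ _ => by rw [NN_eq]
        · push_cast
          rw [Fintype.sum_prod_type]
          exact Finset.sum_le_sum fun j _ => Finset.sum_le_sum fun χ _ => by
            exact_mod_cast Ns_le _ T (2 * T) (hfin (j, χ))
      · refine (hfin x).subset ?_
        rintro s ⟨⟨h1, h2, h3⟩, h4⟩
        exact ⟨by rw [h1]; norm_num, by rw [h1]; norm_num, h2, h3, h4⟩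
      · refine (hfin x).subset ?_
        rintro s ⟨⟨h1, h2, h3, h4⟩, h5⟩
        exact ⟨h1, h2, h3, h4, h5⟩
    have k1 : ∑ q ∈ (Finset.Ioc X Y).filter (fun q => Nat.Coprime q N),
        (1 / (q : ℝ) ^ 2) * ((NzI i (fun s => ∏ j, ∏ᶠ χ : DirichletCharacter ℂ q,
          L j χ.conductor χ.primitiveCharacter (s - (i : ℂ) / 2)) T : ℕ) : ℝ) =
        ∑ j, ∑ q ∈ (Finset.Ioc X Y).filter (fun q => Nat.Coprime q N),
        (1 / (q : ℝ) ^ 2) * SS (fun q χ => (NN (L j q χ) T (2 * T) : ℝ)) q := by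
      rw [Finset.sum_comm]
      exact Finset.sum_congr rfl fun q hq => by rw [(key q hq).1, Finset.mul_sum]
    have k2 : ∑ j, ∑ q ∈ (Finset.Ioc X Y).filter (fun q => Nat.Coprime q N),
        (1 / (q : ℝ) ^ 2) * SS (fun q χ => (Ns (L j q χ) T (2 * T) : ℝ)) q ≤
        ∑ q ∈ (Finset.Ioc X Y).filter (fun q => Nat.Coprime q N),
        (1 / (q : ℝ) ^ 2) * ((N₀I i (fun s => ∏ j, ∏ᶠ χ : DirichletCharacter ℂ q,
          L j χ.conductor χ.primitiveCharacter (s - (i : ℂ) / 2)) T : ℕ) : ℝ) := by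
      rw [Finset.sum_comm]
      refine Finset.sum_le_sum fun q hq => ?_
      rw [← Finset.mul_sum]
      exact mul_le_mul_of_nonneg_left (key q hq).2 (by positivity)
    rw [k1]
    refine ⟨?_, le_trans ?_ k2⟩
    · calc (Fintype.card J : ℝ) * (T * Real.log X / 9) = ∑ _j : J, (T * Real.log X / 9) := by
            rw [Finset.sum_const, Finset.card_univ, nsmul_eq_mul]
        _ ≤ _ := Finset.sum_le_sum fun j _ => (hb j).1
    · rw [Finset.mul_sum]
      exact Finset.sum_le_sum fun j _ => (hb j).2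

end Pool.Agent.Zk20.GT
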