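import Pool.Agent.W388.TW.Final
import Pool.Agent.H385R2.EcD2
import Pool.Agent.H385R2.DirU
import Pool.Agent.H370R2.EF
import Pool.Agent.H370R2.NT

/-!
The twists `L(s, ψ χ)` of a primitive Dirichlet character `ψ` modulo `M` by the primitive characters `χ` of
conductor prime to `M`, as a family of degree one (helper20).
-/

set_option autoImplicit false
set_option maxHeartbeats 4000000

open Complex Filter Topology Set MeasureTheory
open H370 (zset mult NN Nd Ns)
open H385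

namespace Pool.Agent.Zk20.GT

/-- the L-function of `ψ χ` -/
noncomputable def LD {M : ℕ} (ψ : DirichletCharacter ℂ M) (q : ℕ) (χ : DirichletCharacter ℂ q) :
    ℂ → ℂ := LF (q * M) (pm χ ψ)

lemma LD_eq {M : ℕ} [NeZero M] (ψ : DirichletCharacter ℂ M) (q : ℕ) [NeZero q]
    (χ : DirichletCharacter ℂ q) : LD ψ q χ = DirichletCharacter.LFunction (pm χ ψ) := by
  unfold LD LF
  rw [dif_neg (Nat.mul_ne_zero (NeZero.ne q) (NeZero.ne M))]

lemma goodE_of_D {d A Q : ℝ} {F : ℂ → ℂ} {a : ℕ → ℂ} (hd : 0 ≤ d) (hA : 1 ≤ A)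
    (hQ : 1 ≤ Q) (h : GoodD d A Q F a) :
    W388.GoodE d (A + d * H370.D0) Q F a := by
  have hD0 : 0 ≤ H370.D0 := tsum_nonneg fun n =>
    mul_nonneg ArithmeticFunction.vonMangoldt_nonneg (by positivity)
  have hdD : 0 ≤ d * H370.D0 := mul_nonneg hd hD0
  have hb : ∀ n : ℕ, ‖a n‖ * (n : ℝ) ^ (-(3 / 2) : ℝ) ≤
      d * (ArithmeticFunction.vonMangoldt n * (n : ℝ) ^ (-(3 / 2) : ℝ)) := by
    intro n
    have h1 : (0 : ℝ) ≤ (n : ℝ) ^ (-(3 / 2) : ℝ) := by positivity
    calc ‖a n‖ * (n : ℝ) ^ (-(3 / 2) : ℝ) ≤ (d * ArithmeticFunction.vonMangoldt n) *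
        (n : ℝ) ^ (-(3 / 2) : ℝ) := mul_le_mul_of_nonneg_right (h.ha n) h1
      _ = _ := by ring
  have hs : Summable (fun n : ℕ => d * (ArithmeticFunction.vonMangoldt n *
      (n : ℝ) ^ (-(3 / 2) : ℝ))) := H370.lam_summable.mul_left d
  have hs1 : Summable (fun n : ℕ => ‖a n‖ * (n : ℝ) ^ (-(3 / 2) : ℝ)) :=
    Summable.of_nonneg_of_le (fun n => by positivity) hb hs
  have hAA : A ≤ A + d * H370.D0 := by linarith
  refine ⟨h.an, ?_, ?_, h.nzr, h.nzl, h.symm, ?_, hs1, ?_, h.ld, ?_⟩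
  · intro s h1 h2 h3
    have hs : 1 ≤ Q * s.im := by nlinarith
    refine (h.growth s h1 h2 h3).trans ?_
    have e2 : (Q * s.im) ^ A ≤ (Q * s.im) ^ (A + d * H370.D0) :=
      Real.rpow_le_rpow_of_exponent_le hs hAA
    exact mul_le_mul hAA e2 (by positivity) (by linarith)
  · intro t ht
    refine le_trans ?_ (h.lower t ht)
    exact inv_anti₀ (by linarith) hAA
  · intro n hn
    have h1 := h.ha n
    have h2 : ArithmeticFunction.vonMangoldt n = 0 := by
      interval_cases n <;> simp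
    rw [h2, mul_zero] at h1
    exact norm_le_zero_iff.mp h1
  · calc ∑' n : ℕ, ‖a n‖ * (n : ℝ) ^ (-(3 / 2) : ℝ) ≤
        ∑' n : ℕ, d * (ArithmeticFunction.vonMangoldt n * (n : ℝ) ^ (-(3 / 2) : ℝ)) :=
          Summable.tsum_le_tsum hb hs1 hs
      _ = d * H370.D0 := by rw [tsum_mul_left]; rfl
      _ ≤ _ := by linarith
  · intro s h1 h2 h3 h4
    exact (h.left s h1 h2 h3 h4).trans hAA

/-- goodness of the twists -/
theorem good_LD (M : ℕ) (hM : M ≠ 0) (ψ : DirichletCharacter ℂ M) (hψ : ψ.IsPrimitive) :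
    ∃ A : ℝ, 1 ≤ A ∧ ∀ (q : ℕ) (χ : DirichletCharacter ℂ q), 1 ≤ q → Nat.Coprime q M →
      χ.IsPrimitive → W388.GoodE 1 A (q : ℝ) (LD ψ q χ)
        (fun n => χ (n : ZMod q) * ψ (n : ZMod M) * (ArithmeticFunction.vonMangoldt n : ℂ)) := by
  obtain ⟨A, hA, hgood⟩ := good_dirichlet_U
  have hMr : (1 : ℝ) ≤ M := by exact_mod_cast Nat.one_le_iff_ne_zero.mpr hM
  have i2 : NeZero M := ⟨hM⟩
  have hlog : 0 ≤ Real.log M := Real.log_nonneg hMr
  have hD0 : 0 ≤ H370.D0 := tsum_nonneg fun n =>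
    mul_nonneg ArithmeticFunction.vonMangoldt_nonneg (by positivity)
  have hA' : 1 ≤ A * (M : ℝ) ^ A + A + 1 * Real.log M := by
    have h1 : 0 ≤ A * (M : ℝ) ^ A := by positivity
    linarith
  refine ⟨(A * (M : ℝ) ^ A + A + 1 * Real.log M) + 1 * H370.D0, by linarith, ?_⟩
  intro q χ hq hqM hχ
  have i1 : NeZero q := ⟨by omega⟩
  have hq1 : (1 : ℝ) ≤ q := by exact_mod_cast hq
  have i3 : NeZero (q * M) := ⟨Nat.mul_ne_zero (by omega) hM⟩
  have h := hgood (q * M) (pm χ ψ) (pm_primitive hqM hχ hψ)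
  have hD : GoodD 1 A ((q : ℝ) * M) (DirichletCharacter.LFunction (pm χ ψ))
      (fun n => (pm χ ψ) (n : ZMod (q * M)) * (ArithmeticFunction.vonMangoldt n : ℂ)) := by
    have hcast : ((q * M : ℕ) : ℝ) = (q : ℝ) * M := by push_cast; rfl
    rw [hcast] at h
    refine ⟨h.an, h.growth, h.lower, h.nzr, h.nzl, h.symm, ?_, h.ld, ?_⟩
    · intro n
      rw [one_mul]
      exact h.ha n
    · intro s h1 h2 h3 h4
      rw [one_mul]
      exact h.left s h1 h2 h3 h4
  have h2 := goodE_of_D zero_le_one hA' hq1 (GoodD.scale hMr zero_le_one hA hq1 hD)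
  rw [LD_eq]
  have e : (fun n : ℕ => χ (n : ZMod q) * ψ (n : ZMod M) * (ArithmeticFunction.vonMangoldt n : ℂ)) =
      (fun n : ℕ => (pm χ ψ) (n : ZMod (q * M)) * (ArithmeticFunction.vonMangoldt n : ℂ)) := by
    funext n
    rw [pm_apply]
  rw [e]
  exact h2

lemma noncop_bound (M : ℕ) (hM : M ≠ 0) : ∃ C : ℝ, ∀ N : ℕ,
    ∑ n ∈ (Finset.Icc 1 N).filter (fun n => ¬ Nat.Coprime n M),
      ArithmeticFunction.vonMangoldt n / n ≤ C := by
  classical
  refine ⟨∑ p ∈ M.primeFactors, Real.log p * 2, fun N => ?_⟩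
  have h1 : ∑ n ∈ (Finset.Icc 1 N).filter (fun n => ¬ Nat.Coprime n M),
      ArithmeticFunction.vonMangoldt n / n ≤
      ∑ x ∈ M.primeFactors ×ˢ Finset.range N, Real.log x.1 * (1 / 2 : ℝ) ^ x.2 := by
    have h2 : ∑ n ∈ (Finset.Icc 1 N).filter (fun n => ¬ Nat.Coprime n M),
        ArithmeticFunction.vonMangoldt n / n =
        ∑ n ∈ ((Finset.Icc 1 N).filter (fun n => ¬ Nat.Coprime n M)).filter (fun n => IsPrimePow n),
          ArithmeticFunction.vonMangoldt n / n := by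
      symm
      apply Finset.sum_filter_of_ne
      intro n _ hn
      by_contra hc
      apply hn
      rw [ArithmeticFunction.vonMangoldt_eq_zero_iff.mpr hc, zero_div]
    rw [h2]
    set S := ((Finset.Icc 1 N).filter (fun n => ¬ Nat.Coprime n M)).filter (fun n => IsPrimePow n)
      with hS
    set φ : ℕ → ℕ × ℕ := fun n => (n.minFac, n.factorization n.minFac - 1) with hφ
    have key : ∀ n ∈ S, ∃ p k : ℕ, p.Prime ∧ n = p ^ (k + 1) ∧ φ n = (p, k) ∧
        p ∈ M.primeFactors ∧ k ∈ Finset.range N := by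
      intro n hn
      rw [hS, Finset.mem_filter, Finset.mem_filter, Finset.mem_Icc] at hn
      obtain ⟨⟨⟨hn1, hn2⟩, hn3⟩, hn4⟩ := hn
      obtain ⟨p, k, hp, hk, rfl⟩ := (isPrimePow_nat_iff _).mp hn4
      obtain ⟨j, rfl⟩ : ∃ j, k = j + 1 := ⟨k - 1, by omega⟩
      refine ⟨p, j, hp, rfl, ?_, ?_, ?_⟩
      · have h3 : (p ^ (j + 1)).minFac = p := hp.pow_minFac (by omega)
        rw [hφ]
        show ((p ^ (j + 1)).minFac, (p ^ (j + 1)).factorization (p ^ (j + 1)).minFac - 1) = (p, j)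
        rw [h3, hp.factorization_pow]
        simp
      · rw [Nat.mem_primeFactors]
        refine ⟨hp, ?_, hM⟩
        by_contra hc
        exact hn3 (Nat.Coprime.pow_left _ ((Nat.Prime.coprime_iff_not_dvd hp).mpr hc))
      · rw [Finset.mem_range]
        have h4 : j + 1 < p ^ (j + 1) := Nat.lt_pow_self hp.one_lt
        omega
    have h5 : ∀ n ∈ S, ArithmeticFunction.vonMangoldt n / n ≤
        Real.log (φ n).1 * (1 / 2 : ℝ) ^ (φ n).2 := by
      intro n hn
      obtain ⟨p, k, hp, hn', hφn, _, _⟩ := key n hn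
      rw [hφn, hn', ArithmeticFunction.vonMangoldt_apply_pow (by omega),
        ArithmeticFunction.vonMangoldt_apply_prime hp]
      have hp2 : (2 : ℝ) ≤ p := by exact_mod_cast hp.two_le
      have h6 : (1 : ℝ) / ((p ^ (k + 1) : ℕ) : ℝ) ≤ (1 / 2 : ℝ) ^ k := by
        push_cast
        rw [one_div, ← inv_pow, show (1 / 2 : ℝ) = 2⁻¹ by norm_num]
        have h7 : (p : ℝ)⁻¹ ≤ 2⁻¹ := inv_anti₀ (by norm_num) hp2
        have h8 : (0 : ℝ) ≤ (p : ℝ)⁻¹ := by positivity
        calc (p : ℝ)⁻¹ ^ (k + 1) ≤ (2 : ℝ)⁻¹ ^ (k + 1) := pow_le_pow_left₀ h8 h7 _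
          _ ≤ (2 : ℝ)⁻¹ ^ k := pow_le_pow_of_le_one (by norm_num) (by norm_num) (by omega)
      have h9 : 0 ≤ Real.log p := Real.log_nonneg (by linarith)
      calc Real.log p / ((p ^ (k + 1) : ℕ) : ℝ) = Real.log p * (1 / ((p ^ (k + 1) : ℕ) : ℝ)) := by ring
        _ ≤ Real.log p * (1 / 2 : ℝ) ^ k := mul_le_mul_of_nonneg_left h6 h9
    refine (Finset.sum_le_sum h5).trans ?_
    have hinj : Set.InjOn φ S := by
      intro a ha b hb hab
      obtain ⟨p, k, _, ha', hφa, _, _⟩ := key a ha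
      obtain ⟨p', k', _, hb', hφb, _, _⟩ := key b hb
      rw [hφa, hφb] at hab
      obtain ⟨rfl, rfl⟩ := Prod.mk.inj hab
      rw [ha', hb']
    rw [← Finset.sum_image (f := fun x : ℕ × ℕ => Real.log x.1 * (1 / 2 : ℝ) ^ x.2) hinj]
    refine Finset.sum_le_sum_of_subset_of_nonneg ?_ ?_
    · intro x hx
      rw [Finset.mem_image] at hx
      obtain ⟨n, hn, rfl⟩ := hx
      obtain ⟨p, k, _, _, hφn, h6, h7⟩ := key n hn
      rw [hφn, Finset.mem_product]
      exact ⟨h6, h7⟩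
    · intro x hx _
      rw [Finset.mem_product] at hx
      have := (Nat.prime_of_mem_primeFactors hx.1).one_lt
      have h3 : (1 : ℝ) ≤ x.1 := by exact_mod_cast this.le
      have := Real.log_nonneg h3
      positivity
  refine h1.trans ?_
  rw [Finset.sum_product]
  refine Finset.sum_le_sum fun p hp => ?_
  show ∑ y ∈ Finset.range N, Real.log (p : ℝ) * (1 / 2 : ℝ) ^ y ≤ Real.log p * 2
  rw [← Finset.mul_sum]
  have h3 : (1 : ℝ) ≤ p := by exact_mod_cast (Nat.prime_of_mem_primeFactors hp).one_lt.le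
  refine mul_le_mul_of_nonneg_left ?_ (Real.log_nonneg h3)
  have h4 : ∑ i ∈ Finset.range N, (1 / 2 : ℝ) ^ i ≤ ∑' i : ℕ, (1 / 2 : ℝ) ^ i :=
    Summable.sum_le_tsum _ (fun _ _ => by positivity) summable_geometric_two
  rwa [tsum_geometric_two] at h4

/-- weak Selberg orthonormality for a Dirichlet character -/
theorem selE_dir (M : ℕ) (hM : M ≠ 0) (ψ : DirichletCharacter ℂ M) :
    W388.SelE (fun n => ψ (n : ZMod M)) := by
  classical
  obtain ⟨C, hC⟩ := noncop_bound M hM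
  have i2 : NeZero M := ⟨hM⟩
  have hC0 : 0 ≤ C := by
    have := hC 0
    simpa using this
  have hn : ∀ n : ℕ, ‖ψ (n : ZMod M)‖ ^ 2 = if Nat.Coprime n M then 1 else 0 := by
    intro n
    split_ifs with h
    · rw [← ZMod.coe_unitOfCoprime n h, DirichletCharacter.unit_norm_eq_one, one_pow]
    · rw [MulChar.map_nonunit ψ (by rwa [ZMod.isUnit_iff_coprime]), norm_zero]
      norm_num
  have hsum : ∀ N : ℕ, ∑ n ∈ Finset.Icc 1 N, ArithmeticFunction.vonMangoldt n *
      ‖ψ (n : ZMod M)‖ ^ 2 / n = ∑ n ∈ Finset.Icc 1 N, ArithmeticFunction.vonMangoldt n / n -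
      ∑ n ∈ (Finset.Icc 1 N).filter (fun n => ¬ Nat.Coprime n M),
        ArithmeticFunction.vonMangoldt n / n := by
    intro N
    rw [← Finset.sum_filter_add_sum_filter_not (Finset.Icc 1 N) (fun n => Nat.Coprime n M)
      (fun n => ArithmeticFunction.vonMangoldt n / n), add_sub_cancel_right, Finset.sum_filter]
    refine Finset.sum_congr rfl fun n _ => ?_
    rw [hn]
    split_ifs <;> simp
  unfold W388.SelE
  have hlog : Tendsto (fun x : ℝ => Real.log x) atTop atTop := Real.tendsto_log_atTop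
  have hlow : ∀ᶠ x : ℝ in atTop, 1 - (C + 2) / Real.log x ≤
      (∑ n ∈ Finset.Icc 1 ⌊x⌋₊, ArithmeticFunction.vonMangoldt n * ‖ψ (n : ZMod M)‖ ^ 2 / n) /
        Real.log x := by
    filter_upwards [eventually_ge_atTop 3] with x hx
    have hx1 : 1 < x := by linarith
    have hl : 0 < Real.log x := Real.log_pos hx1
    have hN : 1 ≤ ⌊x⌋₊ := Nat.le_floor (by push_cast; linarith)
    have h1 := H370.nt_mertens_lower ⌊x⌋₊ hN
    have h2 : Real.log x - 1 ≤ Real.log ⌊x⌋₊ := by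
      have h3 : x / Real.exp 1 ≤ (⌊x⌋₊ : ℝ) := by
        have h4 : x < ⌊x⌋₊ + 1 := Nat.lt_floor_add_one x
        have h5 : (2 : ℝ) ≤ Real.exp 1 := by
          have := Real.exp_one_gt_d9
          linarith
        rw [div_le_iff₀ (by linarith)]
        have h6 : (1 : ℝ) ≤ (⌊x⌋₊ : ℝ) := by exact_mod_cast hN
        nlinarith
      have h4 := Real.log_le_log (by positivity) h3
      rwa [Real.log_div (by linarith) (Real.exp_pos 1).ne', Real.log_exp] at h4
    rw [hsum, le_div_iff₀ hl]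
    have h3 := hC ⌊x⌋₊
    have h4 : (1 - (C + 2) / Real.log x) * Real.log x = Real.log x - (C + 2) := by
      field_simp
    rw [h4]
    linarith
  have hup : ∀ᶠ x : ℝ in atTop,
      (∑ n ∈ Finset.Icc 1 ⌊x⌋₊, ArithmeticFunction.vonMangoldt n * ‖ψ (n : ZMod M)‖ ^ 2 / n) /
        Real.log x ≤ 1 + 6 / Real.log x := by
    filter_upwards [eventually_ge_atTop 3] with x hx
    have hx1 : 1 < x := by linarith
    have hl : 0 < Real.log x := Real.log_pos hx1
    have hN : 1 ≤ ⌊x⌋₊ := Nat.le_floor (by push_cast; linarith)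
    have h1 := H370.nt_mertens_upper ⌊x⌋₊ hN
    have h2 : Real.log ⌊x⌋₊ ≤ Real.log x :=
      Real.log_le_log (by exact_mod_cast hN) (Nat.floor_le (by linarith))
    have h3 : 0 ≤ ∑ n ∈ (Finset.Icc 1 ⌊x⌋₊).filter (fun n => ¬ Nat.Coprime n M),
        ArithmeticFunction.vonMangoldt n / n :=
      Finset.sum_nonneg fun n _ => div_nonneg ArithmeticFunction.vonMangoldt_nonneg (by positivity)
    rw [hsum, div_le_iff₀ hl]
    have h4 : (1 + 6 / Real.log x) * Real.log x = Real.log x + 6 := by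
      field_simp
    rw [h4]
    linarith
  refine tendsto_of_tendsto_of_tendsto_of_le_of_le' ?_ ?_ hlow hup
  · have := (hlog.const_div_atTop (C + 2)).const_sub 1
    simpa using this
  · have := (hlog.const_div_atTop 6).const_add 1
    simpa using this

end Pool.Agent.Zk20.GT
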