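import Pool.Agent.Zk20.GT.Assemble
import Pool.Agent.Zk20.GT.PackC
import Pool.Agent.Zk20.GT.Dir
import Pool.Agent.H370R2.DirGood

/-!
The two kinds of pieces: newforms with a Tate twist, and Dirichlet characters with a Tate twist (helper20).
-/

set_option autoImplicit false
set_option maxHeartbeats 4000000

open Complex Filter Topology UpperHalfPlane MatrixGroups CongruenceSubgroup
open H370 (zset mult NN Nd Ns)
open H385
open Pool.Agent.H82R3.EK (SS)

namespace Pool.Agent.Zk20.GT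

lemma su_aux (i : ℕ) (u : ℕ → ℂ) (hu : ∀ p : ℕ, ‖u p‖ ≤ (p : ℝ) ^ i) (s : ℂ)
    (hs : (i : ℝ) / 2 + 1 < s.re) :
    Summable (fun p : Nat.Primes => Real.sqrt ‖u p‖ * ((p : ℕ) : ℝ) ^ (-s.re)) := by
  have h1 : Summable (fun p : Nat.Primes => ((p : ℕ) : ℝ) ^ ((i : ℝ) / 2 - s.re)) :=
    Nat.Primes.summable_rpow.2 (by linarith)
  refine Summable.of_nonneg_of_le (fun p => by positivity) (fun p => ?_) h1
  have hp0 : (0 : ℝ) < (p : ℕ) := by exact_mod_cast p.2.pos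
  have h2 : Real.sqrt ‖u p‖ ≤ ((p : ℕ) : ℝ) ^ ((i : ℝ) / 2) := by
    refine (Real.sqrt_le_sqrt (hu p)).trans (le_of_eq ?_)
    rw [Real.sqrt_eq_rpow, ← Real.rpow_natCast, ← Real.rpow_mul hp0.le]
    congr 1
    ring
  calc Real.sqrt ‖u p‖ * ((p : ℕ) : ℝ) ^ (-s.re) ≤ ((p : ℕ) : ℝ) ^ ((i : ℝ) / 2) *
      ((p : ℕ) : ℝ) ^ (-s.re) := mul_le_mul_of_nonneg_right h2 (by positivity)
    _ = _ := by rw [← Real.rpow_add hp0]; congr 1

lemma cpow_shift (p : ℕ) (hp : p.Prime) (i : ℕ) (s : ℂ) :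
    ((p : ℂ) ^ i * ((p : ℂ) ^ (-s)) ^ 2) = (p : ℂ) ^ (-2 * (s - (i : ℂ) / 2)) := by
  have hpc : (p : ℂ) ≠ 0 := by exact_mod_cast hp.ne_zero
  rw [← Complex.cpow_natCast, ← Complex.cpow_nat_mul, ← Complex.cpow_add _ _ hpc]
  congr 1
  push_cast
  ring

lemma lamC_shift {M : ℕ} [NeZero M] {k r i : ℕ} (hk : k + 2 * r = i + 1)
    (f : CuspForm (Gamma1 M : Subgroup (GL (Fin 2) ℝ)) (k : ℤ)) (p : ℕ) (hp : p.Prime) (s : ℂ) :
    ((qExpansion 1 f).coeff p * (p : ℂ) ^ r) * (p : ℂ) ^ (-s) =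
      W388.lamC f p * (p : ℂ) ^ (-(s - (i : ℂ) / 2)) := by
  have hpc : (p : ℂ) ≠ 0 := by exact_mod_cast hp.ne_zero
  have h1 : (k : ℂ) + 2 * r = i + 1 := by exact_mod_cast hk
  have hcast : (((k : ℤ) : ℂ)) = (k : ℂ) := by push_cast; rfl
  rw [W388.lamC_eq f p hp.ne_zero, hcast, ← Complex.cpow_natCast (p : ℂ) r, mul_assoc, mul_assoc,
    ← Complex.cpow_add _ _ hpc, ← Complex.cpow_add _ _ hpc]
  congr 2
  linear_combination (1 / 2 : ℂ) * h1

lemma eulU_newform {M : ℕ} [NeZero M] {k r i : ℕ} (hk : k + 2 * r = i + 1)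
    (f : CuspForm (Gamma1 M : Subgroup (GL (Fin 2) ℝ)) (k : ℤ)) (ψ : DirichletCharacter ℂ M)
    (q : ℕ) (χ : DirichletCharacter ℂ q) (s : ℂ) :
    (fun p : Nat.Primes => eulU (fun p => (qExpansion 1 f).coeff p * (p : ℂ) ^ r)
        (fun p => ψ (p : ZMod M) * (p : ℂ) ^ i) q χ s p) =
      fun p : Nat.Primes =>
            (1 - χ ((p : ℕ) : ZMod q) * W388.lamC f p * ((p : ℕ) : ℂ) ^ (-(s - (i : ℂ) / 2)) +
              χ ((p : ℕ) : ZMod q) ^ 2 * ψ ((p : ℕ) : ZMod M) *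
                ((p : ℕ) : ℂ) ^ (-2 * (s - (i : ℂ) / 2)))⁻¹ := by
  funext p
  have e1 := lamC_shift hk f p p.2 s
  have e2 := cpow_shift p p.2 i s
  have e3 : ∀ a b c d e g : ℂ, b * c = d → e * c ^ 2 = g → ∀ w : ℂ,
      (1 - a * b * c + a ^ 2 * (w * e * c ^ 2))⁻¹ = (1 - a * d + a ^ 2 * w * g)⁻¹ := by
    intro a b c d e g h1 h2 w
    rw [← h1, ← h2]
    congr 1
    ring
  have e4 := e3 (χ ((p : ℕ) : ZMod q)) _ _ _ _ _ e1 e2 (ψ ((p : ℕ) : ZMod M))
  unfold eulU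
  rw [mul_assoc (χ ((p : ℕ) : ZMod q)) (W388.lamC f p)]
  rw [← e4]

lemma Rw_ge : 0.885 ≤ Rw 1.414 0 := by
  have h := Rw_const_closed 1.414 1 0 (by norm_num)
  rw [one_mul, zero_mul, add_zero, zero_mul, add_zero, one_mul] at h
  rw [h]
  have hh : (1.414 : ℝ) / 2 = 707 / 1000 := by norm_num
  have hS : Real.sin 1.414 = 2 * Real.sin (707 / 1000) * Real.cos (707 / 1000) := by
    rw [← Real.sin_two_mul]; congr 1; norm_num
  rw [hS, hh]
  obtain ⟨hcos, hsin⟩ := trig_707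
  rw [abs_le] at hcos hsin
  set s := Real.sin (707 / 1000) with hs
  set c := Real.cos (707 / 1000) with hc
  have s1 : s ≤ 0.6612 := by linarith [hsin.2]
  have s2 : 0.635 ≤ s := by linarith [hsin.1]
  have c1 : 0.736 ≤ c := by linarith [hcos.1]
  have hs0 : 0 < s := by linarith
  have e1 : 1.069 ≤ 1.414 / (2 * s) := by
    rw [le_div_iff₀ (by positivity)]
    norm_num at s1 ⊢
    linarith
  have e2 : 1.142 ≤ (1.414 / (2 * s)) ^ 2 := by
    have := mul_le_mul e1 e1 (by norm_num) (by positivity)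
    rw [← sq] at this
    norm_num at this ⊢
    linarith
  have e3 : 0.93 ≤ 2 * s * c := by
    have := mul_le_mul s2 c1 (by norm_num) hs0.le
    norm_num at this ⊢
    linarith
  have e4 : 1.65 ≤ 1 + 2 * s * c / 1.414 := by
    have : 0.65 ≤ 2 * s * c / 1.414 := by
      rw [le_div_iff₀ (by norm_num)]
      norm_num at e3 ⊢
      linarith
    norm_num at this ⊢
    linarith
  have e5 := mul_le_mul (div_le_div_of_nonneg_right e2 (by norm_num : (0 : ℝ) ≤ 2)) e4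
    (by norm_num) (by positivity)
  refine le_trans ?_ e5
  norm_num

open W388 in
theorem newfC_summable {N : ℕ} [NeZero N] {k : ℤ} (hk : 1 ≤ k) {ψ : DirichletCharacter ℂ N}
    {f : CuspForm (Gamma1 N : Subgroup (GL (Fin 2) ℝ)) k} {η : ℂ} (hf : IsNewfC N k ψ f η)
    (s : ℂ) (hs : 1 < s.re) :
    Summable (fun n : ℕ => ‖lamC f n * (n : ℂ) ^ (-s)‖) := by
  have hN : 0 < N := Nat.pos_of_ne_zero (NeZero.ne N)
  obtain ⟨θ, lam, hθ, hθ1, hθ2, hH, hlam⟩ := reduce ψ (lamC f) (lamC_zero f) (lamC_one hf)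
    (lamC_mul hf) (lamC_pow hf) (fun p hp hpN => lamC_conj hf p
      ((Nat.Prime.coprime_iff_not_dvd hp).mpr hpN))
  have hR : RSLim lam := by
    have h1 := p_rsC N k hk ψ f hf.neb hf.one
    have h2 : ∀ n : ℕ, ‖lamC f n‖ ^ 2 = lam n ^ 2 := by
      intro n
      rw [hlam n]
      rcases eq_or_ne n 0 with rfl | hn
      · rw [hθ.zero, hH.zero]; simp
      · rw [norm_mul, hθ1 n hn, one_mul, Complex.norm_real, Real.norm_eq_abs, sq_abs]
    unfold RSLim at h1 ⊢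
    simp only [h2] at h1
    exact h1
  obtain ⟨A1, hA1, d1, d2, d3⟩ := p_dirG N hN lam hH hR
  have := (d3 _ hθ (fun s => ∑' n : ℕ, θ n * (lam n : ℂ) *
      (n : ℂ) ^ (-s)) (fun _ _ => rfl)).1 s hs
  refine this.congr fun n => ?_
  rw [hlam]

/-- a newform of weight `k`, twisted `r` times, `k + 2 r = i + 1` -/
theorem piece_newform {i M k r : ℕ} (hM : 1 ≤ M) (hk : 1 ≤ k) (hkr : k + 2 * r = i + 1)
    (ψ : DirichletCharacter ℂ M)
    (f : CuspForm (Gamma1 M : Subgroup (GL (Fin 2) ℝ)) (k : ℤ)) {η : ℂ}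
    (hf : W388.IsNewfC M (k : ℤ) ψ f η) {N : ℕ} (hN : N ≠ 0) (hMN : M ∣ N) :
    ∃ L : (q : ℕ) → DirichletCharacter ℂ q → ℂ → ℂ,
      IsPiece i N (fun p => (qExpansion 1 f).coeff p * (p : ℂ) ^ r)
        (fun p => ψ (p : ZMod M) * (p : ℂ) ^ i) L ∧
      ∀ (q : ℕ) (χ : DirichletCharacter ℂ q), 1 ≤ q → Nat.Coprime q N → χ.IsPrimitive →
        AnalyticAt ℂ (L q χ) 1 := by
  haveI : NeZero M := ⟨by omega⟩
  obtain ⟨A, c, F, hA, hgood, hsel, hF⟩ := newfC_pack (by exact_mod_cast hk) hf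
  have hcop : ∀ q : ℕ, Nat.Coprime q N → Nat.Coprime q M := fun q h =>
    Nat.Coprime.coprime_dvd_right hMN h
  refine ⟨F, ⟨?_, ?_, ?_, ?_, ?_, ?_, ?_⟩, ?_⟩
  · intro q χ h1 h2 h3 s _
    exact (hF q χ h1 (hcop q h2) h3).1.analyticAt s
  · intro q χ h1 h2 h3
    exact ((hF q χ h1 (hcop q h2) h3).1.analyticAt 1).meromorphicAt
  · intro q χ h1 h2 h3 s hs
    have h4 := (hF q χ h1 (hcop q h2) h3).2 (s - (i : ℂ) / 2) (by rw [re_half']; linarith)
    rw [eulU_newform hkr f ψ q χ s]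
    exact h4
  · intro s hs
    have h5 := (newfC_summable (by exact_mod_cast hk) hf (s - (i : ℂ) / 2)
      (by rw [re_half']; linarith)).comp_injective
      (i := fun p : Nat.Primes => (p : ℕ)) (fun a b h => Subtype.ext h)
    refine h5.congr fun p => ?_
    show ‖W388.lamC f p * ((p : ℕ) : ℂ) ^ (-(s - (i : ℂ) / 2))‖ = _
    rw [← lamC_shift hkr f p p.2 s]
  · intro s hs
    refine su_aux i (fun p => ψ (p : ZMod M) * (p : ℂ) ^ i) (fun p => ?_) s hs
    show ‖ψ (p : ZMod M) * (p : ℂ) ^ i‖ ≤ (p : ℝ) ^ i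
    rw [norm_mul, norm_pow, Complex.norm_natCast]
    exact mul_le_of_le_one_left (by positivity) (ψ.norm_le_one _)
  · exact ⟨2, A, by norm_num, hA, fun q χ h1 h2 h3 => ⟨_, hgood q χ h1 (hcop q h2) h3⟩⟩
  · have hc : (2 : ℝ) / 2 * Rw 1.414 0 + 4 / 2 * (∫ α in (0 : ℝ)..1, α * Rw 1.414 α) < 1.3275 := by
      have := Rw_const_d2
      norm_num at this ⊢
      exact this
    obtain ⟨K, η, X0, hK, hη, hX0, h⟩ := avg_gen 2 A (by norm_num) hA c F hgood hsel 1.414 1.3275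
      (by norm_num) (by linarith [Real.pi_gt_three]) (by norm_num) hc hN hMN
    refine ⟨K, η, X0, hK, hη, hX0, fun X Y T a1 a2 a3 a4 a5 => ?_⟩
    obtain ⟨h1, h2⟩ := h X Y T a1 a2 a3 a4 a5
    exact ⟨h1, by norm_num at h2 ⊢; exact h2⟩
  · intro q χ h1 h2 h3
    exact (hF q χ h1 (hcop q h2) h3).1.analyticAt 1

lemma mer_LFunction {n : ℕ} [NeZero n] (χ : DirichletCharacter ℂ n) :
    MeromorphicAt (DirichletCharacter.LFunction χ) 1 := by
  by_cases h : χ = 1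
  · subst h
    have h1 : MeromorphicAt (fun s : ℂ => DirichletCharacter.LFunctionTrivChar₁ n s / (s - 1)) 1 := by
      refine MeromorphicAt.div ?_ ?_
      · exact ((DirichletCharacter.differentiable_LFunctionTrivChar₁ n).analyticAt 1).meromorphicAt
      · exact AnalyticAt.meromorphicAt (by fun_prop)
    refine h1.congr ?_
    filter_upwards [self_mem_nhdsWithin] with s hs
    have hs1 : s - 1 ≠ 0 := sub_ne_zero.mpr hs
    rw [DirichletCharacter.LFunctionTrivChar₁, Function.update_of_ne hs]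
    rw [mul_comm, mul_div_assoc, div_self hs1, mul_one]
  · exact ((DirichletCharacter.differentiable_LFunction h).analyticAt 1).meromorphicAt

/-- a primitive Dirichlet character, twisted `m` times, `i = 2 m` -/
theorem piece_dirichlet {i m M : ℕ} (hM : 1 ≤ M) (hi : i = 2 * m)
    (ψ : DirichletCharacter ℂ M) (hψ : ψ.IsPrimitive) {N : ℕ} (hN : N ≠ 0) (hMN : M ∣ N) :
    IsPiece i N (fun p => ψ (p : ZMod M) * (p : ℂ) ^ m) (fun _ => 0) (LD ψ) ∧
      (ψ ≠ 1 → ∀ (q : ℕ) (χ : DirichletCharacter ℂ q), 1 ≤ q → Nat.Coprime q N → χ.IsPrimitive →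
        AnalyticAt ℂ (LD ψ q χ) 1) := by
  haveI : NeZero M := ⟨by omega⟩
  have hM0 : M ≠ 0 := NeZero.ne M
  obtain ⟨A, hA, hgood⟩ := good_LD M hM0 ψ hψ
  have hsel := selE_dir M hM0 ψ
  have hcop : ∀ q : ℕ, Nat.Coprime q N → Nat.Coprime q M := fun q h =>
    Nat.Coprime.coprime_dvd_right hMN h
  have hm2 : (i : ℂ) / 2 = m := by rw [hi]; push_cast; ring
  have hm2r : (i : ℝ) / 2 = m := by rw [hi]; push_cast; ring
  have hpm : ∀ (p : ℕ), p.Prime → ∀ s : ℂ, (p : ℂ) ^ m * (p : ℂ) ^ (-s) =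
      (p : ℂ) ^ (-(s - (i : ℂ) / 2)) := by
    intro p hp s
    have hpc : (p : ℂ) ≠ 0 := by exact_mod_cast hp.ne_zero
    rw [hm2, ← Complex.cpow_natCast, ← Complex.cpow_add _ _ hpc]
    congr 1
    ring
  refine ⟨⟨?_, ?_, ?_, ?_, ?_, ?_, ?_⟩, ?_⟩
  · intro q χ h1 h2 h3 s hs
    haveI : NeZero q := ⟨by omega⟩
    haveI : NeZero (q * M) := ⟨Nat.mul_ne_zero (by omega) hM0⟩
    rw [LD_eq]
    exact H370.DL.analyticAt_L hs
  · intro q χ h1 h2 h3
    haveI : NeZero q := ⟨by omega⟩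
    haveI : NeZero (q * M) := ⟨Nat.mul_ne_zero (by omega) hM0⟩
    rw [LD_eq]
    exact mer_LFunction _
  · intro q χ h1 h2 h3 s hs
    haveI : NeZero q := ⟨by omega⟩
    haveI : NeZero (q * M) := ⟨Nat.mul_ne_zero (by omega) hM0⟩
    have hre : 1 < (s - (i : ℂ) / 2).re := by rw [re_half']; linarith
    have h4 := DirichletCharacter.LSeries_eulerProduct_hasProd (pm χ ψ) hre
    rw [LD_eq, DirichletCharacter.LFunction_eq_LSeries _ hre]
    refine (congrArg (fun g => HasProd g (LSeries (fun n => (pm χ ψ) n) (s - (i : ℂ) / 2)))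
      (funext fun p => ?_)).mpr h4
    unfold eulU
    rw [pm_apply, ← hpm p p.2 s]
    congr 1
    ring
  · intro s hs
    have h1 : Summable (fun p : Nat.Primes => ((p : ℕ) : ℝ) ^ ((m : ℝ) - s.re)) :=
      Nat.Primes.summable_rpow.2 (by linarith)
    refine Summable.of_nonneg_of_le (fun p => norm_nonneg _) (fun p => ?_) h1
    have hp0 : (0 : ℝ) < (p : ℕ) := by exact_mod_cast p.2.pos
    rw [mul_assoc, norm_mul, hpm p p.2 s, Complex.norm_natCast_cpow_of_pos p.2.pos]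
    have h2 : (-(s - (i : ℂ) / 2)).re = (m : ℝ) - s.re := by
      rw [Complex.neg_re, re_half', hm2r]
      ring
    rw [h2]
    exact mul_le_of_le_one_left (by positivity) (ψ.norm_le_one _)
  · intro s hs
    simp only [norm_zero, Real.sqrt_zero, zero_mul]
    exact summable_zero
  · exact ⟨1, A, le_refl _, hA, fun q χ h1 h2 h3 => ⟨_, hgood q χ h1 (hcop q h2) h3⟩⟩
  · have hJ : 0 ≤ ∫ α in (0 : ℝ)..1, α * Rw 1.414 α := I1_nonneg 1.414 (by norm_num)
      (by linarith [Real.pi_gt_three])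
    have hR := Rw_ge
    have hc : (1 : ℝ) / 2 * Rw 1.414 0 + 4 / 1 * (∫ α in (0 : ℝ)..1, α * Rw 1.414 α) < 1.3275 := by
      have := Rw_const_d2
      norm_num at this ⊢
      linarith
    obtain ⟨K, η, X0, hK, hη, hX0, h⟩ := avg_gen 1 A le_rfl hA _ (LD ψ) hgood hsel 1.414 1.3275
      (by norm_num) (by linarith [Real.pi_gt_three]) (by norm_num) hc hN hMN
    refine ⟨K, η, X0, hK, hη, hX0, fun X Y T a1 a2 a3 a4 a5 => ?_⟩
    obtain ⟨h1, h2⟩ := h X Y T a1 a2 a3 a4 a5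
    exact ⟨h1, by norm_num at h2 ⊢; exact h2⟩
  · intro hψ1 q χ h1 h2 h3
    haveI : NeZero q := ⟨by omega⟩
    haveI : NeZero (q * M) := ⟨Nat.mul_ne_zero (by omega) hM0⟩
    rw [LD_eq]
    refine (DirichletCharacter.differentiable_LFunction ?_).analyticAt 1
    intro h
    have hp := pm_primitive (hcop q h2) h3 hψ
    rw [h] at hp
    have hc1 : (q * M : ℕ) = 1 := by
      have := DirichletCharacter.isPrimitive_def (1 : DirichletCharacter ℂ (q * M)) |>.mp hp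
      rw [DirichletCharacter.conductor_one] at this
      exact this.symm
    have hM1 : M = 1 := Nat.eq_one_of_mul_eq_one_left hc1
    apply hψ1
    subst hM1
    exact Subsingleton.elim _ _

end Pool.Agent.Zk20.GT
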